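import Pool.Agent.Lib.MP_70c3c6_co.AF.Interp2

/-!
MP_70c3c6_co, arbitrary fields: a finite set of nonzero vectors of the plane over a field `K`, such
that every difference of two of them is proportional to one of them, determines a number of
directions which is `1` in `K`.
-/

set_option autoImplicit false
open Classical

namespace MPss.AF

open MPss

/-- generic coordinate over the field of rational functions -/
noncomputable def gen {K : Type} [Field K] (s t : K) : RatFunc K :=
  algebraMap (Polynomial K) (RatFunc K) (Polynomial.C s + Polynomial.X * Polynomial.C t)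

noncomputable def con {K : Type} [Field K] (t : K) : RatFunc K :=
  algebraMap (Polynomial K) (RatFunc K) (Polynomial.C t)

section

variable {K : Type} [Field K]

lemma am_inj : Function.Injective (algebraMap (Polynomial K) (RatFunc K)) :=
  IsFractionRing.injective _ _

lemma gen_inj {s t s' t' : K} (h : gen s t = gen s' t') : s = s' ∧ t = t' := by
  have h1 := am_inj h
  constructor
  · have := congrArg (fun p => Polynomial.coeff p 0) h1
    simpa using this
  · have := congrArg (fun p => Polynomial.coeff p 1) h1
    simpa using this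

lemma gen_zero : gen (0 : K) 0 = 0 := by simp [gen]

lemma gen_mul (r s t : K) : gen (r * s) (r * t) = con r * gen s t := by
  unfold gen con
  rw [← map_mul]
  congr 1
  simp only [Polynomial.C_mul]
  ring

lemma con_mul (r s : K) : con (r * s) = con r * con s := by
  unfold con
  rw [← map_mul, Polynomial.C_mul]

lemma con_ne {r : K} (h : r ≠ 0) : con r ≠ 0 := by
  unfold con
  intro h0
  apply h
  rw [← map_zero (algebraMap (Polynomial K) (RatFunc K))] at h0
  exact Polynomial.C_eq_zero.1 (am_inj h0)

lemma con_natCast (n : ℕ) : con (n : K) = (n : RatFunc K) := by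
  unfold con
  simp

lemma con_one : con (1 : K) = 1 := by
  unfold con
  simp

lemma con_inj {r s : K} (h : con r = con s) : r = s := Polynomial.C_injective (am_inj h)

/-- `con t * gen s' t' = con t' * gen s t` means proportionality -/
lemma cross {s t s' t' : K} (h : con t * gen s' t' = con t' * gen s t) : s * t' = s' * t := by
  unfold gen con at h
  rw [← map_mul, ← map_mul] at h
  have h1 := congrArg (fun p => Polynomial.coeff p 0) (am_inj h)
  simp at h1
  linear_combination -h1

end

theorem core_cast {K : Type} [Field K] {ι κ : Type} (S : Finset ι) (s t : ι → K)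
    (hS : S.Nonempty)
    (hne : ∀ i ∈ S, ¬ (s i = 0 ∧ t i = 0))
    (hinj : ∀ i ∈ S, ∀ j ∈ S, i ≠ j → ¬ (s i = s j ∧ t i = t j))
    (H : ∀ i ∈ S, ∀ j ∈ S, i ≠ j → ∃ l ∈ S, (s i - s j) * t l = (t i - t j) * s l)
    (M : Finset κ) (d e : κ → K)
    (hM : ∀ c ∈ M, ∃ i ∈ S, ∃ r : K, r ≠ 0 ∧ s i = r * d c ∧ t i = r * e c)
    (hSM : ∀ i ∈ S, ∃ c ∈ M, ∃ r : K, r ≠ 0 ∧ s i = r * d c ∧ t i = r * e c)
    (hMM : ∀ c ∈ M, ∀ c' ∈ M, c ≠ c' → d c * e c' ≠ d c' * e c) :
    (M.card : K) = 1 := by
  have hde : ∀ c ∈ M, gen (d c) (e c) ≠ 0 := by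
    intro c hc h0
    rw [← gen_zero] at h0
    obtain ⟨h1, h2⟩ := gen_inj h0
    obtain ⟨i, hi, r, hr, h3, h4⟩ := hM c hc
    apply hne i hi
    rw [h3, h4, h1, h2]
    simp
  have h1 := cast_card_rts (S := S) (a := fun i => gen (s i) (t i)) (b := fun i => con (t i)) hS
    (by
      intro i hi h0
      have h0' : gen (s i) (t i) = gen 0 0 := by rw [gen_zero]; exact h0
      exact hne i hi (gen_inj h0'))
    (by
      intro i hi j hj hij h0
      exact hinj i hi j hj hij (gen_inj h0))
    (by
      intro i hi j hj hij
      obtain ⟨l, hl, h⟩ := H i hi j hj hij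
      refine ⟨l, hl, ?_⟩
      show (gen (s i) (t i) - gen (s j) (t j)) * con (t l) = (con (t i) - con (t j)) *
        gen (s l) (t l)
      unfold gen con
      rw [← map_sub, ← map_sub, ← map_mul, ← map_mul]
      congr 1
      have h' : (Polynomial.C (s i) - Polynomial.C (s j)) * Polynomial.C (t l) =
          (Polynomial.C (t i) - Polynomial.C (t j)) * Polynomial.C (s l) := by
        rw [← Polynomial.C_sub, ← Polynomial.C_sub, ← Polynomial.C_mul, ← Polynomial.C_mul, h]
      linear_combination h')
  have h2 : rts S (fun i => gen (s i) (t i)) (fun i => con (t i)) =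
      M.image fun c => -con (e c) / gen (d c) (e c) := by
    have key : ∀ i, ∀ c ∈ M, ∀ r : K, r ≠ 0 → s i = r * d c → t i = r * e c →
        -con (t i) / gen (s i) (t i) = -con (e c) / gen (d c) (e c) := by
      intro i c hc r hr h3 h4
      rw [h3, h4, gen_mul, con_mul]
      have h5 := con_ne hr
      have h6 := hde c hc
      field_simp
    ext y
    unfold rts
    rw [Finset.mem_image, Finset.mem_image]
    constructor
    · rintro ⟨i, hi, rfl⟩
      obtain ⟨c, hc, r, hr, h3, h4⟩ := hSM i hi
      exact ⟨c, hc, (key i c hc r hr h3 h4).symm⟩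
    · rintro ⟨c, hc, rfl⟩
      obtain ⟨i, hi, r, hr, h3, h4⟩ := hM c hc
      exact ⟨i, hi, key i c hc r hr h3 h4⟩
  have h3 : (rts S (fun i => gen (s i) (t i)) (fun i => con (t i))).card = M.card := by
    rw [h2]
    apply Finset.card_image_of_injOn
    intro c hc c' hc' h
    by_contra hcc
    have h4 : -con (e c) / gen (d c) (e c) = -con (e c') / gen (d c') (e c') := h
    rw [div_eq_div_iff (hde c hc) (hde c' hc')] at h4
    have h5 : con (e c) * gen (d c') (e c') = con (e c') * gen (d c) (e c) := by
      linear_combination -h4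
    exact hMM c hc c' hc' hcc (cross h5)
  rw [h3] at h1
  apply con_inj
  rw [con_natCast, con_one]
  exact h1

end MPss.AF
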