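import Pool.Agent.Lib.MP_70c3c6_co.AF.Core2

/-!
MP_70c3c6_co, arbitrary fields: the geometric part.  Every line of a supersolvable arrangement that
does not pass through the modular point contains a double point if the multiplicity of the modular
point is not `1` in the field; the count.  (Adapted from `Geom.lean`.)
-/

set_option autoImplicit false
open Classical

namespace MPss.AF

variable {K : Type} [Field K]

theorem li2_iff (u v : (Fin 3 → K)) : LinearIndependent K ![u, v] ↔
    ∀ x y : K, x • u + y • v = 0 → x = 0 ∧ y = 0 := LinearIndependent.pair_iff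

theorem li3_iff (u v w : (Fin 3 → K)) : LinearIndependent K ![u, v, w] ↔
    ∀ x y z : K, x • u + y • v + z • w = 0 → x = 0 ∧ y = 0 ∧ z = 0 := by
  rw [Fintype.linearIndependent_iff]
  constructor
  · intro h x y z hxyz
    have := h ![x, y, z] (by
      rw [Fin.sum_univ_three]
      simpa using hxyz)
    exact ⟨this 0, this 1, this 2⟩
  · intro h g hg
    rw [Fin.sum_univ_three] at hg
    have := h (g 0) (g 1) (g 2) (by simpa using hg)
    intro i
    fin_cases i
    · exact this.1
    · exact this.2.1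
    · exact this.2.2

theorem li3_swap {u v w : (Fin 3 → K)} (h : LinearIndependent K ![u, v, w]) :
    LinearIndependent K ![v, u, w] := by
  rw [li3_iff] at h ⊢
  intro x y z hxyz
  have := h y x z (by rw [← hxyz]; abel)
  exact ⟨this.2.1, this.1, this.2.2⟩

theorem li3_swap' {u v w : (Fin 3 → K)} (h : LinearIndependent K ![u, v, w]) :
    LinearIndependent K ![u, w, v] := by
  rw [li3_iff] at h ⊢
  intro x y z hxyz
  have := h x z y (by rw [← hxyz]; abel)
  exact ⟨this.1, this.2.2, this.2.1⟩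

/-- a dependent triple whose first two entries are independent -/
theorem comb {u v w : (Fin 3 → K)} (h2 : LinearIndependent K ![u, v])
    (h3 : ¬ LinearIndependent K ![u, v, w]) : ∃ x y : K, w = x • u + y • v := by
  rw [li3_iff] at h3
  push Not at h3
  obtain ⟨x, y, z, h, h0⟩ := h3
  rw [li2_iff] at h2
  have hz : z ≠ 0 := by
    intro hz
    rw [hz, zero_smul, add_zero] at h
    obtain ⟨hx, hy⟩ := h2 x y h
    exact h0 hx hy hz
  refine ⟨-(x / z), -(y / z), ?_⟩
  have h1 : z • w = -(x • u) - y • v := by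
    have : z • w = (x • u + y • v + z • w) - (x • u + y • v) := by abel
    rw [this, h]
    abel
  have h4 : w = z⁻¹ • (z • w) := by rw [smul_smul, inv_mul_cancel₀ hz, one_smul]
  rw [h4, h1]
  ext i
  simp only [Pi.smul_apply, Pi.sub_apply, Pi.neg_apply, Pi.add_apply, smul_eq_mul]
  field_simp
  ring

section Geo

variable {A : Finset (Fin 3 → K)} {p : (Fin 3 → K)}

/-- normalized differences -/
noncomputable def vv (p a b : (Fin 3 → K)) : (Fin 3 → K) := (dotProduct b p)⁻¹ • b - (dotProduct a p)⁻¹ • a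

theorem vv_dot {a b : (Fin 3 → K)} (ha : dotProduct a p ≠ 0) (hb : dotProduct b p ≠ 0) :
    dotProduct (vv p a b) p = 0 := by
  rw [vv, sub_dotProduct, smul_dotProduct, smul_dotProduct, smul_eq_mul, smul_eq_mul,
    inv_mul_cancel₀ ha, inv_mul_cancel₀ hb, sub_self]

theorem vv_sub (a b b' : (Fin 3 → K)) : vv p a b - vv p a b' = vv p b' b := by
  unfold vv
  abel

theorem vv_ne {a b : (Fin 3 → K)} (hb : dotProduct b p ≠ 0)
    (h : LinearIndependent K ![a, b]) : vv p a b ≠ 0 := by
  intro h0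
  rw [li2_iff] at h
  have := h (-(dotProduct a p)⁻¹) ((dotProduct b p)⁻¹) (by
    rw [← h0, vv, neg_smul]
    abel)
  exact inv_ne_zero hb this.2

/-- a line through `p` and the crossing of `a` and `b` is proportional to the difference -/
theorem vv_prop {a b c : (Fin 3 → K)} (ha : dotProduct a p ≠ 0) (hb : dotProduct b p ≠ 0)
    (hc : dotProduct c p = 0) (hc0 : c ≠ 0) (h2 : LinearIndependent K ![a, b])
    (h3 : ¬ LinearIndependent K ![a, b, c]) : ∃ r : K, vv p a b = r • c := by
  obtain ⟨x, y, h⟩ := comb h2 h3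
  have h1 : x * dotProduct a p + y * dotProduct b p = 0 := by
    rw [h, add_dotProduct, smul_dotProduct, smul_dotProduct, smul_eq_mul, smul_eq_mul] at hc
    exact hc
  have hy : y ≠ 0 := by
    intro hy
    rw [hy, zero_mul, add_zero] at h1
    have hx : x = 0 := (mul_eq_zero.mp h1).resolve_right ha
    apply hc0
    rw [h, hx, hy, zero_smul, zero_smul, add_zero]
  refine ⟨(y * dotProduct b p)⁻¹, ?_⟩
  rw [h, vv]
  ext i
  simp only [Pi.smul_apply, Pi.sub_apply, Pi.add_apply, smul_eq_mul]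
  have hx : x = -(y * dotProduct b p) / dotProduct a p := by
    rw [eq_div_iff ha]
    linear_combination h1
  rw [hx]
  field_simp
  ring

/-- the main geometric statement -/
theorem exists_double (hA0 : ∀ a ∈ A, a ≠ 0)
    (hA2 : ∀ a ∈ A, ∀ b ∈ A, a ≠ b → LinearIndependent K ![a, b])
    {c1 c2 : (Fin 3 → K)} (hc1 : c1 ∈ A) (hc2 : c2 ∈ A) (hc12 : c1 ≠ c2)
    (hp1 : dotProduct c1 p = 0) (hp2 : dotProduct c2 p = 0)
    (Hm : ∀ a ∈ A, ∀ b ∈ A, a ≠ b → ¬ (dotProduct a p = 0 ∧ dotProduct b p = 0) →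
      ∃ c ∈ A, dotProduct c p = 0 ∧ ¬ LinearIndependent K ![a, b, c])
    (hm : ((A.filter fun c => dotProduct c p = 0).card : K) ≠ 1)
    {a : (Fin 3 → K)} (ha : a ∈ A) (hap : dotProduct a p ≠ 0) :
    ∃ c ∈ A, dotProduct c p = 0 ∧
      ∀ b ∈ A, dotProduct b p ≠ 0 → b ≠ a → LinearIndependent K ![a, c, b] := by
  by_contra hcon
  push Not at hcon
  -- coordinates
  have hli : LinearIndependent K ![c1, c2, a] := by
    rw [li3_iff]
    intro x y z h
    have h1 : z * dotProduct a p = 0 := by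
      have := congrArg (fun w => dotProduct w p) h
      simpa [add_dotProduct, smul_dotProduct, hp1, hp2] using this
    have hz : z = 0 := (mul_eq_zero.mp h1).resolve_right hap
    rw [hz, zero_smul, add_zero] at h
    obtain ⟨hx, hy⟩ := (li2_iff c1 c2).mp (hA2 c1 hc1 c2 hc2 hc12) x y h
    exact ⟨hx, hy, hz⟩
  let Bs := basisOfLinearIndependentOfCardEqFinrank hli (by simp)
  have hBs : ∀ i, Bs i = ![c1, c2, a] i := fun i => by
    simp only [Bs, coe_basisOfLinearIndependentOfCardEqFinrank]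
  let f0 : (Fin 3 → K) →ₗ[K] K := Bs.coord 0
  let f1 : (Fin 3 → K) →ₗ[K] K := Bs.coord 1
  have hrep : ∀ w : (Fin 3 → K), w = f0 w • c1 + f1 w • c2 + Bs.coord 2 w • a := by
    intro w
    have h1 := Bs.sum_repr w
    rw [Fin.sum_univ_three, hBs 0, hBs 1, hBs 2] at h1
    exact h1.symm
  have hker : ∀ w : (Fin 3 → K), dotProduct w p = 0 → f0 w = 0 → f1 w = 0 → w = 0 := by
    intro w hw h0 h1
    have h2 := hrep w
    rw [h0, h1, zero_smul, zero_smul, zero_add, zero_add] at h2
    have h3 : Bs.coord 2 w * dotProduct a p = 0 := by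
      have := congrArg (fun w => dotProduct w p) h2
      rw [← hw]
      simpa [smul_dotProduct] using this.symm
    rw [h2, (mul_eq_zero.mp h3).resolve_right hap, zero_smul]
  have f0c1 : f0 c1 = 1 := by
    have : Bs.coord 0 (Bs 0) = 1 := by simp
    rw [hBs 0] at this
    exact this
  have f1c1 : f1 c1 = 0 := by
    have : Bs.coord 1 (Bs 0) = 0 := by simp
    rw [hBs 0] at this
    exact this
  have f0c2 : f0 c2 = 0 := by
    have : Bs.coord 0 (Bs 1) = 0 := by simp
    rw [hBs 1] at this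
    exact this
  have f1c2 : f1 c2 = 1 := by
    have : Bs.coord 1 (Bs 1) = 1 := by simp
    rw [hBs 1] at this
    exact this
  -- the finite set
  set S := (A.filter fun b => dotProduct b p ≠ 0).erase a with hS
  have hSA : ∀ b ∈ S, b ∈ A := fun b hb =>
    (Finset.mem_filter.mp (Finset.mem_of_mem_erase hb)).1
  have hSp : ∀ b ∈ S, dotProduct b p ≠ 0 := fun b hb =>
    (Finset.mem_filter.mp (Finset.mem_of_mem_erase hb)).2
  have hSa : ∀ b ∈ S, b ≠ a := fun b hb => Finset.ne_of_mem_erase hb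
  -- every line through `p` is seen from `a`
  have hbad : ∀ c ∈ A, dotProduct c p = 0 → ∃ l ∈ S, ∃ r : K, vv p a l = r • c := by
    intro c hc hcp
    obtain ⟨b, hb, hbp, hba, h3⟩ := hcon c hc hcp
    refine ⟨b, Finset.mem_erase.mpr ⟨hba, Finset.mem_filter.mpr ⟨hb, hbp⟩⟩, ?_⟩
    exact vv_prop hap hbp hcp (hA0 c hc) (hA2 a ha b hb (Ne.symm hba)) fun h => h3 (li3_swap' h)
  -- every difference is seen from `p`
  have hdir : ∀ b ∈ A, ∀ b' ∈ A, dotProduct b p ≠ 0 → dotProduct b' p ≠ 0 → b' ≠ b →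
      ∃ c ∈ A, dotProduct c p = 0 ∧ ∃ r : K, r ≠ 0 ∧ vv p b b' = r • c := by
    intro b hb b' hb' hbp hbp' hne
    obtain ⟨c, hc, hcp, h3⟩ := Hm b hb b' hb' (Ne.symm hne) fun h => hbp h.1
    obtain ⟨r, hr⟩ := vv_prop hbp hbp' hcp (hA0 c hc) (hA2 b hb b' hb' (Ne.symm hne)) h3
    refine ⟨c, hc, hcp, r, ?_, hr⟩
    intro h0
    refine vv_ne hbp' (hA2 b hb b' hb' (Ne.symm hne)) ?_
    rw [hr, h0, zero_smul]
  have hnz : ∀ b ∈ S, vv p a b ≠ 0 := fun b hb =>
    vv_ne (hSp b hb) (hA2 a ha b (hSA b hb) (Ne.symm (hSa b hb)))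
  have hcore := core_cast S (fun b => f0 (vv p a b)) (fun b => f1 (vv p a b))
    (by
      obtain ⟨l1, hl1, _⟩ := hbad c1 hc1 hp1
      exact ⟨l1, hl1⟩)
    (by
      rintro b hb ⟨h0, h1⟩
      exact hnz b hb (hker _ (vv_dot hap (hSp b hb)) h0 h1))
    (by
      rintro b hb b' hb' hne ⟨h0, h1⟩
      have h0' : f0 (vv p b' b) = 0 := by
        rw [← vv_sub a b b', map_sub]; exact sub_eq_zero.2 h0
      have h1' : f1 (vv p b' b) = 0 := by
        rw [← vv_sub a b b', map_sub]; exact sub_eq_zero.2 h1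
      exact vv_ne (hSp b hb) (hA2 b' (hSA b' hb') b (hSA b hb) (Ne.symm hne))
        (hker _ (vv_dot (hSp b' hb') (hSp b hb)) h0' h1'))
    (by
      intro b hb b' hb' hne
      obtain ⟨c, hc, hcp, h3⟩ := Hm b' (hSA b' hb') b (hSA b hb) (Ne.symm hne)
        fun h => hSp b' hb' h.1
      obtain ⟨r, hr⟩ := vv_prop (hSp b' hb') (hSp b hb) hcp (hA0 c hc)
        (hA2 b' (hSA b' hb') b (hSA b hb) (Ne.symm hne)) h3
      obtain ⟨l, hl, q, hq⟩ := hbad c hc hcp
      refine ⟨l, hl, ?_⟩
      have e0 : f0 (vv p a b) - f0 (vv p a b') = r * f0 c := by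
        rw [← map_sub, vv_sub, hr, map_smul, smul_eq_mul]
      have e1 : f1 (vv p a b) - f1 (vv p a b') = r * f1 c := by
        rw [← map_sub, vv_sub, hr, map_smul, smul_eq_mul]
      show (f0 (vv p a b) - f0 (vv p a b')) * f1 (vv p a l) =
        (f1 (vv p a b) - f1 (vv p a b')) * f0 (vv p a l)
      rw [e0, e1, hq, map_smul, map_smul, smul_eq_mul, smul_eq_mul]
      ring)
    (A.filter fun c => dotProduct c p = 0) (fun c => f0 c) (fun c => f1 c)
    (by
      intro c hc
      obtain ⟨hcA, hcp⟩ := Finset.mem_filter.mp hc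
      obtain ⟨l, hl, q, hq⟩ := hbad c hcA hcp
      refine ⟨l, hl, q, ?_, ?_, ?_⟩
      · intro h0
        apply hnz l hl
        rw [hq, h0, zero_smul]
      · show f0 (vv p a l) = _
        rw [hq, map_smul, smul_eq_mul]
      · show f1 (vv p a l) = _
        rw [hq, map_smul, smul_eq_mul])
    (by
      intro b hb
      obtain ⟨c, hc, hcp, r, hr, h⟩ := hdir a ha b (hSA b hb) hap (hSp b hb) (hSa b hb)
      refine ⟨c, Finset.mem_filter.mpr ⟨hc, hcp⟩, r, hr, ?_, ?_⟩
      · show f0 (vv p a b) = _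
        rw [h, map_smul, smul_eq_mul]
      · show f1 (vv p a b) = _
        rw [h, map_smul, smul_eq_mul])
    (by
      intro c hc c' hc' hne h
      obtain ⟨hcA, hcp⟩ := Finset.mem_filter.mp hc
      obtain ⟨hcA', hcp'⟩ := Finset.mem_filter.mp hc'
      have hli2 := (li2_iff c c').mp (hA2 c hcA c' hcA' hne)
      -- `f1 c' • c - f1 c • c'` and `f0 c' • c - f0 c • c'` vanish
      have z1 : f1 c' • c - f1 c • c' = 0 := by
        apply hker
        · rw [sub_dotProduct, smul_dotProduct, smul_dotProduct, hcp, hcp']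
          simp
        · rw [map_sub, map_smul, map_smul, smul_eq_mul, smul_eq_mul]
          linear_combination h
        · rw [map_sub, map_smul, map_smul, smul_eq_mul, smul_eq_mul]
          ring
      have z0 : f0 c' • c - f0 c • c' = 0 := by
        apply hker
        · rw [sub_dotProduct, smul_dotProduct, smul_dotProduct, hcp, hcp']
          simp
        · rw [map_sub, map_smul, map_smul, smul_eq_mul, smul_eq_mul]
          ring
        · rw [map_sub, map_smul, map_smul, smul_eq_mul, smul_eq_mul]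
          linear_combination -h
      have y1 := hli2 (f1 c') (-f1 c) (by rw [neg_smul, ← sub_eq_add_neg]; exact z1)
      have y0 := hli2 (f0 c') (-f0 c) (by rw [neg_smul, ← sub_eq_add_neg]; exact z0)
      exact hA0 c' hcA' (hker c' hcp' y0.1 y1.1))
  exact hm hcore

/-- a line through `p` and a line not through `p` never meet a further line through `p` -/
theorem li_of_through (hA2 : ∀ a ∈ A, ∀ b ∈ A, a ≠ b → LinearIndependent K ![a, b])
    {a c b : (Fin 3 → K)} (hap : dotProduct a p ≠ 0) (hc : c ∈ A) (hcp : dotProduct c p = 0)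
    (hb : b ∈ A) (hbp : dotProduct b p = 0) (hcb : c ≠ b) : LinearIndependent K ![a, c, b] := by
  rw [li3_iff]
  intro x y z h
  have h1 : x * dotProduct a p = 0 := by
    have := congrArg (fun w => dotProduct w p) h
    simpa [add_dotProduct, smul_dotProduct, hcp, hbp] using this
  have hx : x = 0 := (mul_eq_zero.mp h1).resolve_right hap
  rw [hx, zero_smul, zero_add] at h
  obtain ⟨hy, hz⟩ := (li2_iff c b).mp (hA2 c hc b hb hcb) y z h
  exact ⟨hx, hy, hz⟩

/-- the count for one line -/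
theorem count_line (hA0 : ∀ a ∈ A, a ≠ 0)
    (hA2 : ∀ a ∈ A, ∀ b ∈ A, a ≠ b → LinearIndependent K ![a, b])
    {a : (Fin 3 → K)} (ha : a ∈ A) (hap : dotProduct a p ≠ 0) :
    (A.filter fun c => dotProduct c p = 0).card + 1 ≤
      ((A.filter fun c => dotProduct c p = 0).filter fun c =>
        ∀ b ∈ A, dotProduct b p ≠ 0 → b ≠ a → LinearIndependent K ![a, c, b]).card +
      (A.filter fun c => dotProduct c p ≠ 0).card := by
  set Ap := A.filter fun c => dotProduct c p = 0 with hAp
  set A' := A.filter fun c => dotProduct c p ≠ 0 with hA'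
  have haA' : a ∈ A' := Finset.mem_filter.mpr ⟨ha, hap⟩
  have h1 : (Ap.filter fun c =>
      ∀ b ∈ A, dotProduct b p ≠ 0 → b ≠ a → LinearIndependent K ![a, c, b]).card +
      (Ap.filter fun c =>
      ¬ ∀ b ∈ A, dotProduct b p ≠ 0 → b ≠ a → LinearIndependent K ![a, c, b]).card =
      Ap.card := by
    convert Finset.card_filter_add_card_filter_not (s := Ap) (fun c =>
      ∀ b ∈ A, dotProduct b p ≠ 0 → b ≠ a → LinearIndependent K ![a, c, b])
  have h2 : (Ap.filter fun c =>
      ¬ ∀ b ∈ A, dotProduct b p ≠ 0 → b ≠ a → LinearIndependent K ![a, c, b]).card ≤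
      (A'.erase a).card := by
    have hch : ∀ c ∈ Ap.filter fun c =>
        ¬ ∀ b ∈ A, dotProduct b p ≠ 0 → b ≠ a → LinearIndependent K ![a, c, b],
        ∃ b ∈ A'.erase a, ∃ r : K, vv p a b = r • c := by
      intro c hc
      obtain ⟨hc1, hc2⟩ := Finset.mem_filter.mp hc
      obtain ⟨hcA, hcp⟩ := Finset.mem_filter.mp hc1
      push Not at hc2
      obtain ⟨b, hb, hbp, hba, h3⟩ := hc2
      refine ⟨b, Finset.mem_erase.mpr ⟨hba, Finset.mem_filter.mpr ⟨hb, hbp⟩⟩, ?_⟩
      exact vv_prop hap hbp hcp (hA0 c hcA) (hA2 a ha b hb (Ne.symm hba))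
        fun h => h3 (li3_swap' h)
    choose! g hg using hch
    refine Finset.card_le_card_of_injOn g (fun c hc => (hg c hc).1) ?_
    intro c hc d hd hcd
    by_contra hne
    obtain ⟨r, hr⟩ := (hg c hc).2
    obtain ⟨q, hq⟩ := (hg d hd).2
    have hcd' : g c = g d := hcd
    rw [← hcd'] at hq
    have hcA := (Finset.mem_filter.mp (Finset.mem_filter.mp hc).1).1
    have hdA := (Finset.mem_filter.mp (Finset.mem_filter.mp hd).1).1
    have h3 := (li2_iff c d).mp (hA2 c hcA d hdA hne) r (-q) (by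
      rw [neg_smul, ← hr, ← hq, add_neg_cancel])
    have h4 := (hg c hc).1
    have h5 := Finset.mem_filter.mp (Finset.mem_of_mem_erase h4)
    refine vv_ne h5.2 (hA2 a ha (g c) h5.1 (Ne.symm (Finset.ne_of_mem_erase h4))) ?_
    rw [hr, h3.1, zero_smul]
  rw [Finset.card_erase_of_mem haA'] at h2
  have h3 : 0 < A'.card := Finset.card_pos.mpr ⟨a, haA'⟩
  omega

end Geo

/-- the theorem -/
theorem main (A : Finset (Fin 3 → K)) (hA0 : ∀ a ∈ A, a ≠ 0)
    (hA2 : ∀ a ∈ A, ∀ b ∈ A, a ≠ b → LinearIndependent K ![a, b])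
    (hA3 : ∃ a ∈ A, ∃ b ∈ A, ∃ c ∈ A, LinearIndependent K ![a, b, c])
    (p : (Fin 3 → K)) (hp : p ≠ 0)
    (h2 : ∃ a ∈ A, ∃ b ∈ A, a ≠ b ∧ dotProduct a p = 0 ∧ dotProduct b p = 0)
    (Hm : ∀ a ∈ A, ∀ b ∈ A, a ≠ b → ¬ (dotProduct a p = 0 ∧ dotProduct b p = 0) →
      ∃ c ∈ A, dotProduct c p = 0 ∧ ¬ LinearIndependent K ![a, b, c])
    (hm : ((A.filter fun c => dotProduct c p = 0).card : K) ≠ 1) :
    2 * max (A.filter fun c => dotProduct c p ≠ 0).card
      (A.filter fun c => dotProduct c p = 0).card ≤ ((A ×ˢ A).filter (fun x => x.1 ≠ x.2 ∧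
        ∀ c ∈ A, c ≠ x.1 → c ≠ x.2 → LinearIndependent K ![x.1, x.2, c])).card := by
  obtain ⟨c1, hc1, c2, hc2, hc12, hp1, hp2⟩ := h2
  set Ap := A.filter fun c => dotProduct c p = 0 with hAp
  set A' := A.filter fun c => dotProduct c p ≠ 0 with hA'
  -- the good pairs
  set good : (Fin 3 → K) → Finset (Fin 3 → K) := fun a => Ap.filter fun c =>
    ∀ b ∈ A, dotProduct b p ≠ 0 → b ≠ a → LinearIndependent K ![a, c, b] with hgood
  set Gd : Finset (Σ _ : (Fin 3 → K), (Fin 3 → K)) := A'.sigma good with hGd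
  set Fn := (A ×ˢ A).filter (fun x => x.1 ≠ x.2 ∧
        ∀ c ∈ A, c ≠ x.1 → c ≠ x.2 → LinearIndependent K ![x.1, x.2, c]) with hFn
  have hne : ∀ a c : (Fin 3 → K), dotProduct a p ≠ 0 → dotProduct c p = 0 → a ≠ c := by
    rintro a c h1 h2 rfl
    exact h1 h2
  have hgoodli : ∀ a ∈ A', ∀ c ∈ good a, ∀ b ∈ A, b ≠ a → b ≠ c →
      LinearIndependent K ![a, c, b] := by
    intro a ha c hc b hb hba hbc
    obtain ⟨haA, hap⟩ := Finset.mem_filter.mp ha
    obtain ⟨hc1, hc2⟩ := Finset.mem_filter.mp hc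
    obtain ⟨hcA, hcp⟩ := Finset.mem_filter.mp hc1
    by_cases hbp : dotProduct b p = 0
    · exact li_of_through hA2 hap hcA hcp hb hbp (Ne.symm hbc)
    · exact hc2 b hb hbp hba
  -- the two injections
  have hcard : 2 * Gd.card ≤ Fn.card := by
    have e1 : (Gd.image fun x => (x.1, x.2)).card = Gd.card := by
      refine Finset.card_image_of_injective _ ?_
      rintro ⟨a, b⟩ ⟨c, d⟩ h
      simp only [Prod.mk.injEq] at h
      obtain ⟨rfl, rfl⟩ := h
      rfl
    have e2 : (Gd.image fun x => (x.2, x.1)).card = Gd.card := by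
      refine Finset.card_image_of_injective _ ?_
      rintro ⟨a, b⟩ ⟨c, d⟩ h
      simp only [Prod.mk.injEq] at h
      obtain ⟨rfl, rfl⟩ := h
      rfl
    have hdis : Disjoint (Gd.image fun x => (x.1, x.2)) (Gd.image fun x => (x.2, x.1)) := by
      rw [Finset.disjoint_left]
      intro x hx hy
      obtain ⟨⟨a, c⟩, h1, rfl⟩ := Finset.mem_image.mp hx
      obtain ⟨⟨a', c'⟩, h2, h3⟩ := Finset.mem_image.mp hy
      simp only [Prod.mk.injEq] at h3
      have ha := (Finset.mem_filter.mp (Finset.mem_sigma.mp h1).1).2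
      have hc' := (Finset.mem_filter.mp (Finset.mem_filter.mp (Finset.mem_sigma.mp h2).2).1).2
      exact hne _ _ ha hc' h3.1.symm
    have hsub : (Gd.image fun x => (x.1, x.2)) ∪ (Gd.image fun x => (x.2, x.1)) ⊆ Fn := by
      intro x hx
      rcases Finset.mem_union.mp hx with hx | hx
      · obtain ⟨⟨a, c⟩, h1, rfl⟩ := Finset.mem_image.mp hx
        obtain ⟨ha, hc⟩ := Finset.mem_sigma.mp h1
        obtain ⟨haA, hap⟩ := Finset.mem_filter.mp ha
        obtain ⟨hcA, hcp⟩ := Finset.mem_filter.mp (Finset.mem_filter.mp hc).1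
        exact Finset.mem_filter.mpr ⟨Finset.mem_product.mpr ⟨haA, hcA⟩, hne _ _ hap hcp,
          fun b hb h1 h2 => hgoodli a ha c hc b hb h1 h2⟩
      · obtain ⟨⟨a, c⟩, h1, rfl⟩ := Finset.mem_image.mp hx
        obtain ⟨ha, hc⟩ := Finset.mem_sigma.mp h1
        obtain ⟨haA, hap⟩ := Finset.mem_filter.mp ha
        obtain ⟨hcA, hcp⟩ := Finset.mem_filter.mp (Finset.mem_filter.mp hc).1
        exact Finset.mem_filter.mpr ⟨Finset.mem_product.mpr ⟨hcA, haA⟩,
          Ne.symm (hne _ _ hap hcp),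
          fun b hb h1 h2 => li3_swap (hgoodli a ha c hc b hb h2 h1)⟩
    have h3 := Finset.card_le_card hsub
    rw [Finset.card_union_of_disjoint hdis, e1, e2] at h3
    omega
  -- lower bounds for the number of good pairs
  have hA'ne : 0 < A'.card := by
    rw [Finset.card_pos]
    by_contra hemp
    rw [Finset.not_nonempty_iff_eq_empty] at hemp
    obtain ⟨a, ha, b, hb, c, hc, hli⟩ := hA3
    have hz : ∀ x ∈ A, dotProduct x p = 0 := by
      intro x hx
      by_contra h
      have : x ∈ A' := Finset.mem_filter.mpr ⟨hx, h⟩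
      rw [hemp] at this
      exact absurd this (Finset.notMem_empty x)
    let Bs := basisOfLinearIndependentOfCardEqFinrank hli (by simp)
    have hBs : ∀ i, Bs i = ![a, b, c] i := fun i => by
      simp only [Bs, coe_basisOfLinearIndependentOfCardEqFinrank]
    have hall : ∀ w : (Fin 3 → K), dotProduct w p = 0 := by
      intro w
      have h1 := Bs.sum_repr w
      rw [Fin.sum_univ_three, hBs 0, hBs 1, hBs 2] at h1
      rw [← h1]
      show dotProduct (Bs.repr w 0 • a + Bs.repr w 1 • b + Bs.repr w 2 • c) p = 0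
      rw [add_dotProduct, add_dotProduct, smul_dotProduct, smul_dotProduct, smul_dotProduct,
        hz a ha, hz b hb, hz c hc]
      simp
    apply hp
    ext i
    have := hall (Pi.single i 1)
    simpa using this
  have hsum : Gd.card = ∑ a ∈ A', (good a).card := Finset.card_sigma _ _
  have hg1 : ∀ a ∈ A', 1 ≤ (good a).card := by
    intro a ha
    obtain ⟨haA, hap⟩ := Finset.mem_filter.mp ha
    obtain ⟨c, hc, hcp, h⟩ := exists_double hA0 hA2 hc1 hc2 hc12 hp1 hp2 Hm hm haA hap
    exact Finset.card_pos.mpr ⟨c, Finset.mem_filter.mpr ⟨Finset.mem_filter.mpr ⟨hc, hcp⟩, h⟩⟩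
  have hg2 : ∀ a ∈ A', Ap.card + 1 ≤ (good a).card + A'.card := by
    intro a ha
    obtain ⟨haA, hap⟩ := Finset.mem_filter.mp ha
    exact count_line hA0 hA2 haA hap
  refine le_trans (Nat.mul_le_mul_left 2 ?_) hcard
  rw [hsum]
  set m := Ap.card
  set k := A'.card
  rcases le_or_gt m k with hmk | hmk
  · have h1 : A'.card • 1 ≤ ∑ a ∈ A', (good a).card := Finset.card_nsmul_le_sum _ _ _ hg1
    rw [smul_eq_mul, mul_one] at h1
    have h1' : k ≤ ∑ a ∈ A', (good a).card := h1
    exact max_le h1' (hmk.trans h1')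
  · obtain ⟨d, hd⟩ : ∃ d, m = k + d := ⟨m - k, by omega⟩
    have h1 : A'.card • (d + 1) ≤ ∑ a ∈ A', (good a).card :=
      Finset.card_nsmul_le_sum _ _ _ fun a ha => by
        have := hg2 a ha
        show d + 1 ≤ _
        omega
    rw [smul_eq_mul] at h1
    have h1' : k * (d + 1) ≤ ∑ a ∈ A', (good a).card := h1
    have h2 : d ≤ k * d := Nat.le_mul_of_pos_left d hA'ne
    have h3 : m ≤ ∑ a ∈ A', (good a).card := by
      rw [hd]
      nlinarith
    exact max_le (hmk.le.trans h3) h3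

end MPss.AF
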