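import Pool.Agent.Lib.MP_70c3c6_co.Interp

/-!
MP_70c3c6_co, arbitrary fields: the number of roots is `1` in the field.
(The proof is that of `MPss.card_rts`, which uses characteristic zero only in its last line.)
-/

set_option autoImplicit false
open Polynomial

namespace MPss.AF

open MPss

variable {K : Type*} [Field K] [DecidableEq K] {ι : Type*} [DecidableEq ι]
variable {S : Finset ι} {a b : ι → K}

/-- the number of roots is `1` in `K` -/
theorem cast_card_rts (hS : S.Nonempty) (ha : ∀ i ∈ S, a i ≠ 0)
    (haa : ∀ i ∈ S, ∀ j ∈ S, i ≠ j → a i ≠ a j)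
    (H : ∀ i ∈ S, ∀ j ∈ S, i ≠ j → ∃ l ∈ S, (a i - a j) * b l = (b i - b j) * a l) :
    ((rts S a b).card : K) = 1 := by
  obtain ⟨B, hB, hBe⟩ := interp ha haa H S subset_rfl
  set X0 := rts S a b with hX0
  set D := X0.card - 1 with hD
  obtain ⟨i0, hi0⟩ := hS
  have hpos : 0 < X0.card := Finset.card_pos.mpr ⟨_, mem_rts S a b hi0⟩
  -- the leading form is constant
  have htop : top B D = 1 := by
    refine eq_of_degrees_lt_of_eval_finset_eq (S.image a) ?_ ?_ ?_
    · have h1 : X0.card ≤ (S.image a).card := by
        rw [Finset.card_image_of_injOn]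
        · exact Finset.card_image_le
        · intro i hi j hj h
          by_contra hne
          exact haa i hi j hj hne h
      refine (degree_le_natDegree).trans_lt ?_
      have h2 := top_natDegree_le B D
      exact_mod_cast (by omega : (top B D).natDegree < (S.image a).card)
    · rw [degree_one]
      have h3 : 0 < (S.image a).card := Finset.card_pos.mpr ⟨_, Finset.mem_image_of_mem a hi0⟩
      exact_mod_cast h3
    · intro x hx
      obtain ⟨j, hj, rfl⟩ := Finset.mem_image.mp hx
      have h1 := top_eval hB (lp_natDegree_le (a j) (b j))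
      rw [lp_coeff_one] at h1
      rw [← h1, hBe j hj, eval_one]
      have h2 := gx_monic X0 (-b j / a j)
      have h3 := gx_natDegree (mem_rts S a b hj)
      have h4 : (gx X0 (-b j / a j)).coeff (gx X0 (-b j / a j)).natDegree = 1 := h2
      rw [h3] at h4
      exact h4
  -- the restriction to the line `y = 0`
  have hder : B.eval 0 = derivative (∏ y ∈ X0, (X - C y)) := by
    refine eq_of_degrees_lt_of_eval_finset_eq X0 ?_ ?_ ?_
    · have h1 := hB.eval_natDegree_le (f := 0) (by simp)
      refine (degree_le_natDegree).trans_lt ?_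
      exact_mod_cast (by omega : (B.eval 0).natDegree < X0.card)
    · have h1 : (∏ y ∈ X0, (X - C y)).natDegree = X0.card := by
        rw [natDegree_prod_of_monic _ _ fun y _ => monic_X_sub_C y]
        simp
      have h0 : (∏ y ∈ X0, (X - C y)) ≠ 0 :=
        (monic_prod_of_monic _ _ fun y _ => monic_X_sub_C y).ne_zero
      have h2 := degree_derivative_lt h0
      rw [degree_eq_natDegree h0, h1] at h2
      exact h2
    · intro x hx
      obtain ⟨j, hj, rfl⟩ := Finset.mem_image.mp hx
      have h1 : (B.eval (lp (a j) (b j))).eval (-b j / a j) = (B.eval 0).eval (-b j / a j) := by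
        have h2 : ∀ f : K[X], (B.eval f).eval (-b j / a j) =
            (B.map (evalRingHom (-b j / a j))).eval (f.eval (-b j / a j)) := by
          intro f
          rw [eval_map]
          exact (eval₂_at_apply (evalRingHom (-b j / a j)) f).symm
        rw [h2, h2, lp_eval, eval_zero]
        congr 1
        field_simp [ha j hj]
        ring
      rw [← h1, hBe j hj]
      rw [← gx_mul hx, derivative_mul, derivative_X_sub_C]
      simp
  have h1 : (B.eval 0).coeff D = 1 := by
    have := top_eval hB (f := 0) (by simp)
    rw [this, htop, eval_one]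
  have h2 : (derivative (∏ y ∈ X0, (X - C y))).coeff D = (X0.card : K) := by
    rw [coeff_derivative]
    have h3 : (∏ y ∈ X0, (X - C y) : K[X]).Monic :=
      monic_prod_of_monic _ _ fun y _ => monic_X_sub_C y
    have h4 : (∏ y ∈ X0, (X - C y)).natDegree = X0.card := by
      rw [natDegree_prod_of_monic _ _ fun y _ => monic_X_sub_C y]
      simp
    have h5 : D + 1 = X0.card := by omega
    have h6 : (∏ y ∈ X0, (X - C y)).coeff (D + 1) = 1 := by
      have h7 : (∏ y ∈ X0, (X - C y)).coeff (∏ y ∈ X0, (X - C y)).natDegree = 1 := h3
      rw [h4] at h7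
      rw [h5]
      exact h7
    rw [h6, one_mul, ← h5]
    push_cast
    ring
  rw [hder, h2] at h1
  exact h1


end MPss.AF
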