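import Pool.Agent.Lib.MP_70c3c6_co.AF.Geom2

/-!
MP_70c3c6_co, arbitrary fields: the arrangement of all lines of a finite projective plane has a
modular point and no double point.
-/

set_option autoImplicit false
open Classical

namespace MPss.AF

section

variable {K : Type} [Field K]

/-- normalized vectors -/
def Nrm (v : Fin 3 → K) : Prop :=
  v 0 = 1 ∨ (v 0 = 0 ∧ v 1 = 1) ∨ (v 0 = 0 ∧ v 1 = 0 ∧ v 2 = 1)

lemma Nrm.ne {v : Fin 3 → K} (h : Nrm v) : v ≠ 0 := by
  rintro rfl
  rcases h with h | h | h <;> simp at h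

lemma exists_nrm {w : Fin 3 → K} (h : w ≠ 0) : ∃ c, Nrm c ∧ ∃ r : K, r ≠ 0 ∧ w = r • c := by
  by_cases h0 : w 0 = 0
  · by_cases h1 : w 1 = 0
    · have h2 : w 2 ≠ 0 := by
        intro h2
        apply h
        ext i
        fin_cases i
        · exact h0
        · exact h1
        · exact h2
      refine ⟨(w 2)⁻¹ • w, Or.inr (Or.inr ⟨?_, ?_, ?_⟩), w 2, h2, ?_⟩
      · simp [h0]
      · simp [h1]
      · simp [h2]
      · rw [smul_smul, mul_inv_cancel₀ h2, one_smul]
    · refine ⟨(w 1)⁻¹ • w, Or.inr (Or.inl ⟨?_, ?_⟩), w 1, h1, ?_⟩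
      · simp [h0]
      · simp [h1]
      · rw [smul_smul, mul_inv_cancel₀ h1, one_smul]
  · refine ⟨(w 0)⁻¹ • w, Or.inl ?_, w 0, h0, ?_⟩
    · simp [h0]
    · rw [smul_smul, mul_inv_cancel₀ h0, one_smul]

lemma Nrm.eq_of_smul {a b : Fin 3 → K} (ha : Nrm a) (hb : Nrm b) {r : K} (h : a = r • b) :
    a = b := by
  have h0 : a 0 = r * b 0 := by rw [h]; rfl
  have h1 : a 1 = r * b 1 := by rw [h]; rfl
  have h2 : a 2 = r * b 2 := by rw [h]; rfl
  have hr : r ≠ 0 := by
    rintro rfl
    rw [zero_smul] at h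
    exact ha.ne h
  have hr1 : r = 1 := by
    rcases ha with ha | ⟨ha, ha1⟩ | ⟨ha, ha1, ha2⟩ <;>
      rcases hb with hb | ⟨hb, hb1⟩ | ⟨hb, hb1, hb2⟩ <;> simp_all
  rw [h, hr1, one_smul]

lemma Nrm.li {a b : Fin 3 → K} (ha : Nrm a) (hb : Nrm b) (hab : a ≠ b) :
    LinearIndependent K ![a, b] := by
  rw [li2_iff]
  intro x y h
  have hx : x = 0 := by
    by_contra hx
    apply hab
    apply ha.eq_of_smul hb (r := -(y / x))
    have h1 : a = x⁻¹ • (x • a) := by rw [smul_smul, inv_mul_cancel₀ hx, one_smul]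
    have h2 : x • a = -(y • b) := by
      rw [← sub_eq_zero, sub_neg_eq_add]
      exact h
    rw [h1, h2, smul_neg, smul_smul, neg_smul]
    congr 2
    field_simp
  refine ⟨hx, ?_⟩
  rw [hx, zero_smul, zero_add] at h
  exact (smul_eq_zero.1 h).resolve_right hb.ne

lemma not_li_of {a b c : Fin 3 → K} {x y r : K} (hr : r ≠ 0) (h : x • a + y • b = r • c) :
    ¬ LinearIndependent K ![a, b, c] := by
  intro hli
  rw [li3_iff] at hli
  have := hli x y (-r) (by rw [h, neg_smul, add_neg_cancel])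
  exact hr (neg_eq_zero.1 this.2.2)

end

/-- the arrangement of all lines -/
theorem plane (K : Type) [Field K] [Fintype K] :
    ∃ A : Finset (Fin 3 → K), (∀ a ∈ A, a ≠ 0) ∧
      (∀ a ∈ A, ∀ b ∈ A, a ≠ b → LinearIndependent K ![a, b]) ∧
      (∃ a ∈ A, ∃ b ∈ A, ∃ c ∈ A, LinearIndependent K ![a, b, c]) ∧
      ∃ p : Fin 3 → K, p ≠ 0 ∧
        (∃ a ∈ A, ∃ b ∈ A, a ≠ b ∧ dotProduct a p = 0 ∧ dotProduct b p = 0) ∧
        (∀ a ∈ A, ∀ b ∈ A, a ≠ b → ¬ (dotProduct a p = 0 ∧ dotProduct b p = 0) →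
          ∃ c ∈ A, dotProduct c p = 0 ∧ ¬ LinearIndependent K ![a, b, c]) ∧
        (A.filter fun c => dotProduct c p = 0).card = Fintype.card K + 1 ∧
        ∀ a ∈ A, ∀ b ∈ A, a ≠ b → ∃ c ∈ A, c ≠ a ∧ c ≠ b ∧
          ¬ LinearIndependent K ![a, b, c] := by
  have hmem : ∀ v : Fin 3 → K, v ∈ Finset.univ.filter (Nrm (K := K)) ↔ Nrm v := fun v => by
    simp
  have hdot : ∀ v : Fin 3 → K, dotProduct v ![1, 0, 0] = v 0 := by
    intro v
    simp [dotProduct, Fin.sum_univ_three]
  refine ⟨Finset.univ.filter (Nrm (K := K)), ?_, ?_, ?_, ![1, 0, 0], ?_, ?_, ?_, ?_, ?_⟩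
  · intro a ha
    exact ((hmem a).1 ha).ne
  · intro a ha b hb hab
    exact ((hmem a).1 ha).li ((hmem b).1 hb) hab
  · refine ⟨![1, 0, 0], (hmem _).2 (by simp [Nrm]), ![0, 1, 0], (hmem _).2 (by simp [Nrm]),
      ![0, 0, 1], (hmem _).2 (by simp [Nrm]), ?_⟩
    rw [li3_iff]
    intro x y z h
    have h0 := congrFun h 0
    have h1 := congrFun h 1
    have h2 := congrFun h 2
    simp at h0 h1 h2
    exact ⟨h0, h1, h2⟩
  · intro h
    have := congrFun h 0
    simp at this
  · refine ⟨![0, 1, 0], (hmem _).2 (by simp [Nrm]), ![0, 0, 1], (hmem _).2 (by simp [Nrm]),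
      ?_, ?_, ?_⟩
    · intro h
      have := congrFun h 1
      simp at this
    · rw [hdot]; rfl
    · rw [hdot]; rfl
  · intro a ha b hb hab hnot
    rw [hdot, hdot] at hnot
    have hli := (li2_iff a b).mp (((hmem a).1 ha).li ((hmem b).1 hb) hab)
    have hw : b 0 • a + (-a 0) • b ≠ 0 := by
      intro h
      have := hli _ _ h
      exact hnot ⟨neg_eq_zero.1 this.2, this.1⟩
    obtain ⟨c, hc, r, hr, h⟩ := exists_nrm hw
    refine ⟨c, (hmem c).2 hc, ?_, not_li_of hr h⟩
    rw [hdot]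
    have h0 := congrFun h 0
    simp only [Pi.add_apply, Pi.smul_apply, smul_eq_mul] at h0
    have h1 : r * c 0 = 0 := by rw [← h0]; ring
    exact (mul_eq_zero.1 h1).resolve_left hr
  · have e : ((Finset.univ.filter (Nrm (K := K))).filter fun c =>
        dotProduct c ![1, 0, 0] = 0) =
        (Finset.univ.image fun x : K => (![0, 1, x] : Fin 3 → K)) ∪ {![0, 0, 1]} := by
      ext v
      rw [Finset.mem_filter, hmem, hdot, Finset.mem_union, Finset.mem_image,
        Finset.mem_singleton]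
      constructor
      · rintro ⟨h | ⟨h, h1⟩ | ⟨h, h1, h2⟩, h0⟩
        · rw [h0] at h; simp at h
        · left
          refine ⟨v 2, Finset.mem_univ _, ?_⟩
          ext i
          fin_cases i
          · exact h0.symm
          · exact h1.symm
          · rfl
        · right
          ext i
          fin_cases i
          · exact h0
          · exact h1
          · exact h2
      · rintro (⟨x, _, rfl⟩ | rfl)
        · exact ⟨Or.inr (Or.inl ⟨rfl, rfl⟩), rfl⟩
        · exact ⟨Or.inr (Or.inr ⟨rfl, rfl, rfl⟩), rfl⟩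
    rw [e, Finset.card_union_of_disjoint, Finset.card_image_of_injective, Finset.card_univ,
      Finset.card_singleton]
    · intro x y h
      have := congrFun h 2
      simpa using this
    · rw [Finset.disjoint_singleton_right, Finset.mem_image]
      rintro ⟨x, _, h⟩
      have := congrFun h 1
      simp at this
  · intro a ha b hb hab
    have hna := (hmem a).1 ha
    have hnb := (hmem b).1 hb
    have hli := (li2_iff a b).mp (hna.li hnb hab)
    have hw : (1 : K) • a + (1 : K) • b ≠ 0 := by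
      intro h
      exact one_ne_zero (hli _ _ h).1
    obtain ⟨c, hc, r, hr, h⟩ := exists_nrm hw
    refine ⟨c, (hmem c).2 hc, ?_, ?_, not_li_of hr h⟩
    · rintro rfl
      have := (hli (1 - r) 1 (by
        rw [sub_smul, ← h]
        module)).2
      exact one_ne_zero this
    · rintro rfl
      have := (hli 1 (1 - r) (by
        rw [sub_smul, ← h]
        module)).1
      exact one_ne_zero this

end MPss.AF
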