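import Pool.Agent.Lib.MP_70c3c6_co.AF.Plane

/-!
MP_70c3c6_co, arbitrary fields: for every prime `l` and every `m = 1 + j l`, `j ≥ 1`, an arrangement in
characteristic `l` with a modular point of multiplicity `m` and a line off it without double point.
-/

set_option autoImplicit false
open Classical

namespace MPss.AF

section

variable {K : Type} [Field K]

/-- the arrangement attached to a finite set `H` with `H - 1 ⊆ H` -/
theorem sharp_of (H : Finset K) (hH : ∀ h ∈ H, h - 1 ∈ H) (hne : H.Nonempty) :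
    ∃ A : Finset (Fin 3 → K), (∀ a ∈ A, a ≠ 0) ∧
      (∀ a ∈ A, ∀ b ∈ A, a ≠ b → LinearIndependent K ![a, b]) ∧
      (∃ a ∈ A, ∃ b ∈ A, ∃ c ∈ A, LinearIndependent K ![a, b, c]) ∧
      ∃ p : Fin 3 → K, p ≠ 0 ∧
        (∃ a ∈ A, ∃ b ∈ A, a ≠ b ∧ dotProduct a p = 0 ∧ dotProduct b p = 0) ∧
        (∀ a ∈ A, ∀ b ∈ A, a ≠ b → ¬ (dotProduct a p = 0 ∧ dotProduct b p = 0) →
          ∃ c ∈ A, dotProduct c p = 0 ∧ ¬ LinearIndependent K ![a, b, c]) ∧
        (A.filter fun c => dotProduct c p = 0).card = H.card + 1 ∧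
        ∃ a ∈ A, dotProduct a p ≠ 0 ∧ ∀ c ∈ A, c ≠ a → ∃ b ∈ A, b ≠ a ∧ b ≠ c ∧
          ¬ LinearIndependent K ![a, c, b] := by
  obtain ⟨h0, hh0⟩ := hne
  set P1 : Finset (Fin 3 → K) := {![1, 0, 0], ![1, 0, 1]} with hP1
  set P2 : Finset (Fin 3 → K) := H.image fun h => ![1, 1, h] with hP2
  set Q1 : Finset (Fin 3 → K) := {![0, 0, 1]} with hQ1
  set Q2 : Finset (Fin 3 → K) := H.image fun h => ![0, 1, h] with hQ2
  set A : Finset (Fin 3 → K) := (P1 ∪ P2) ∪ (Q1 ∪ Q2) with hA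
  have hmem : ∀ v, v ∈ A ↔ (v = ![1, 0, 0] ∨ v = ![1, 0, 1] ∨ ∃ h ∈ H, v = ![1, 1, h]) ∨
      (v = ![0, 0, 1] ∨ ∃ h ∈ H, v = ![0, 1, h]) := by
    intro v
    simp only [hA, hP1, hP2, hQ1, hQ2, Finset.mem_union, Finset.mem_insert,
      Finset.mem_singleton, Finset.mem_image, eq_comm, or_assoc]
  have hnrm : ∀ v ∈ A, Nrm v := by
    intro v hv
    rcases (hmem v).1 hv with (rfl | rfl | ⟨h, _, rfl⟩) | (rfl | ⟨h, _, rfl⟩)
    · exact Or.inl rfl
    · exact Or.inl rfl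
    · exact Or.inl rfl
    · exact Or.inr (Or.inr ⟨rfl, rfl, rfl⟩)
    · exact Or.inr (Or.inl ⟨rfl, rfl⟩)
  have hdot : ∀ v : Fin 3 → K, dotProduct v ![1, 0, 0] = v 0 := by
    intro v
    simp [dotProduct, Fin.sum_univ_three]
  have m1 : (![1, 0, 0] : Fin 3 → K) ∈ A := (hmem _).2 (Or.inl (Or.inl rfl))
  have m2 : (![1, 0, 1] : Fin 3 → K) ∈ A := (hmem _).2 (Or.inl (Or.inr (Or.inl rfl)))
  have m3 : ∀ h ∈ H, (![1, 1, h] : Fin 3 → K) ∈ A := fun h hh =>
    (hmem _).2 (Or.inl (Or.inr (Or.inr ⟨h, hh, rfl⟩)))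
  have m4 : (![0, 0, 1] : Fin 3 → K) ∈ A := (hmem _).2 (Or.inr (Or.inl rfl))
  have m5 : ∀ h ∈ H, (![0, 1, h] : Fin 3 → K) ∈ A := fun h hh =>
    (hmem _).2 (Or.inr (Or.inr ⟨h, hh, rfl⟩))
  have ninj : ∀ {a b c : Fin 3 → K} (x y r : K), r ≠ 0 → x • a + y • b = r • c →
      ¬ LinearIndependent K ![a, b, c] := fun x y r hr h => not_li_of hr h
  refine ⟨A, fun a ha => (hnrm a ha).ne, fun a ha b hb hab => (hnrm a ha).li (hnrm b hb) hab,
    ⟨_, m1, _, m4, _, m5 h0 hh0, ?_⟩, ![1, 0, 0], ?_, ⟨_, m4, _, m5 h0 hh0, ?_, ?_, ?_⟩, ?_, ?_,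
    _, m1, ?_, ?_⟩
  · rw [li3_iff]
    intro x y z h
    have e0 := congrFun h 0
    have e1 := congrFun h 1
    have e2 := congrFun h 2
    simp at e0 e1 e2
    subst e1
    exact ⟨e0, by simpa using e2, rfl⟩
  · intro h
    have := congrFun h 0
    simp at this
  · intro h
    have := congrFun h 1
    simp at this
  · rw [hdot]; rfl
  · rw [hdot]; rfl
  · intro a ha b hb hab hnot
    rw [hdot, hdot] at hnot
    rcases (hmem a).1 ha with (rfl | rfl | ⟨h, hh, rfl⟩) | (rfl | ⟨h, hh, rfl⟩) <;>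
      rcases (hmem b).1 hb with (rfl | rfl | ⟨h', hh', rfl⟩) | (rfl | ⟨h', hh', rfl⟩)
    · exact absurd rfl hab
    · exact ⟨_, m4, by rw [hdot]; rfl, ninj (-1) 1 1 one_ne_zero (by ext i; fin_cases i <;> simp)⟩
    · exact ⟨_, m5 h' hh', by rw [hdot]; rfl,
        ninj (-1) 1 1 one_ne_zero (by ext i; fin_cases i <;> simp)⟩
    · exact ⟨_, m4, by rw [hdot]; rfl, ninj 0 1 1 one_ne_zero (by simp)⟩
    · exact ⟨_, m5 h' hh', by rw [hdot]; rfl, ninj 0 1 1 one_ne_zero (by simp)⟩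
    · exact ⟨_, m4, by rw [hdot]; rfl,
        ninj 1 (-1) 1 one_ne_zero (by ext i; fin_cases i <;> simp)⟩
    · exact absurd rfl hab
    · exact ⟨_, m5 (h' - 1) (hH h' hh'), by rw [hdot]; rfl,
        ninj (-1) 1 1 one_ne_zero (by ext i; fin_cases i <;> simp <;> ring)⟩
    · exact ⟨_, m4, by rw [hdot]; rfl, ninj 0 1 1 one_ne_zero (by simp)⟩
    · exact ⟨_, m5 h' hh', by rw [hdot]; rfl, ninj 0 1 1 one_ne_zero (by simp)⟩
    · exact ⟨_, m5 h hh, by rw [hdot]; rfl,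
        ninj 1 (-1) 1 one_ne_zero (by ext i; fin_cases i <;> simp)⟩
    · exact ⟨_, m5 (h - 1) (hH h hh), by rw [hdot]; rfl,
        ninj 1 (-1) 1 one_ne_zero (by ext i; fin_cases i <;> simp <;> ring)⟩
    · have hne : h - h' ≠ 0 := by
        intro h0
        apply hab
        rw [sub_eq_zero.1 h0]
      exact ⟨_, m4, by rw [hdot]; rfl,
        ninj 1 (-1) (h - h') hne (by ext i; fin_cases i <;> simp <;> ring)⟩
    · exact ⟨_, m4, by rw [hdot]; rfl, ninj 0 1 1 one_ne_zero (by simp)⟩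
    · exact ⟨_, m5 h' hh', by rw [hdot]; rfl, ninj 0 1 1 one_ne_zero (by simp)⟩
    · exact ⟨_, m4, by rw [hdot]; rfl, ninj 1 0 1 one_ne_zero (by simp)⟩
    · exact ⟨_, m4, by rw [hdot]; rfl, ninj 1 0 1 one_ne_zero (by simp)⟩
    · exact ⟨_, m4, by rw [hdot]; rfl, ninj 1 0 1 one_ne_zero (by simp)⟩
    · exact absurd ⟨rfl, rfl⟩ hnot
    · exact absurd ⟨rfl, rfl⟩ hnot
    · exact ⟨_, m5 h hh, by rw [hdot]; rfl, ninj 1 0 1 one_ne_zero (by simp)⟩
    · exact ⟨_, m5 h hh, by rw [hdot]; rfl, ninj 1 0 1 one_ne_zero (by simp)⟩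
    · exact ⟨_, m5 h hh, by rw [hdot]; rfl, ninj 1 0 1 one_ne_zero (by simp)⟩
    · exact absurd ⟨rfl, rfl⟩ hnot
    · exact absurd ⟨rfl, rfl⟩ hnot
  · have e : (A.filter fun c => dotProduct c ![1, 0, 0] = 0) = Q2 ∪ Q1 := by
      ext v
      rw [Finset.mem_filter, hmem, hdot, Finset.mem_union]
      constructor
      · rintro ⟨(rfl | rfl | ⟨h, hh, rfl⟩) | (rfl | ⟨h, hh, rfl⟩), hv⟩
        · simp at hv
        · simp at hv
        · simp at hv
        · right; rw [hQ1]; exact Finset.mem_singleton_self _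
        · left; rw [hQ2]; exact Finset.mem_image_of_mem _ hh
      · rintro (h | h)
        · rw [hQ2, Finset.mem_image] at h
          obtain ⟨h, hh, rfl⟩ := h
          exact ⟨Or.inr (Or.inr ⟨h, hh, rfl⟩), rfl⟩
        · rw [hQ1, Finset.mem_singleton] at h
          subst h
          exact ⟨Or.inr (Or.inl rfl), rfl⟩
    rw [e, Finset.card_union_of_disjoint, hQ2, hQ1, Finset.card_image_of_injective,
      Finset.card_singleton]
    · intro x y h
      have := congrFun h 2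
      simpa using this
    · rw [hQ1, Finset.disjoint_singleton_right, hQ2, Finset.mem_image]
      rintro ⟨x, _, h⟩
      have := congrFun h 1
      simp at this
  · rw [hdot]
    exact one_ne_zero
  · intro c hc hca
    rcases (hmem c).1 hc with (rfl | rfl | ⟨h, hh, rfl⟩) | (rfl | ⟨h, hh, rfl⟩)
    · exact absurd rfl hca
    · refine ⟨_, m4, ?_, ?_, ninj (-1) 1 1 one_ne_zero (by ext i; fin_cases i <;> simp)⟩
      · intro h; have := congrFun h 0; simp at this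
      · intro h; have := congrFun h 0; simp at this
    · refine ⟨_, m5 h hh, ?_, ?_, ninj (-1) 1 1 one_ne_zero (by ext i; fin_cases i <;> simp)⟩
      · intro h; have := congrFun h 0; simp at this
      · intro h; have := congrFun h 0; simp at this
    · refine ⟨_, m2, ?_, ?_, ninj 1 1 1 one_ne_zero (by ext i; fin_cases i <;> simp)⟩
      · intro h; have := congrFun h 2; simp at this
      · intro h; have := congrFun h 0; simp at this
    · refine ⟨_, m3 h hh, ?_, ?_, ninj 1 1 1 one_ne_zero (by ext i; fin_cases i <;> simp)⟩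
      · intro h; have := congrFun h 1; simp at this
      · intro h; have := congrFun h 0; simp at this

end

/-- finite sets of `j l` elements which are invariant under subtraction of `1` -/
theorem exists_H (l j : ℕ) [Fact l.Prime] :
    ∃ H : Finset (RatFunc (ZMod l)), H.card = j * l ∧ ∀ h ∈ H, h - 1 ∈ H := by
  set f : Fin j × ZMod l → RatFunc (ZMod l) := fun x =>
    algebraMap (Polynomial (ZMod l)) (RatFunc (ZMod l))
      (Polynomial.X ^ ((x.1 : ℕ) + 1) + Polynomial.C x.2) with hf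
  have hinj : Function.Injective f := by
    rintro ⟨i, e⟩ ⟨i', e'⟩ h
    have h1 := am_inj h
    have h0 := congrArg (fun p => Polynomial.coeff p 0) h1
    simp at h0
    subst h0
    have h2 : (Polynomial.X ^ ((i : ℕ) + 1) : Polynomial (ZMod l)) =
        Polynomial.X ^ ((i' : ℕ) + 1) := add_right_cancel h1
    have h3 := congrArg Polynomial.natDegree h2
    simp at h3
    rw [Fin.ext h3]
  refine ⟨Finset.univ.image f, ?_, ?_⟩
  · rw [Finset.card_image_of_injective _ hinj, Finset.card_univ, Fintype.card_prod,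
      Fintype.card_fin, ZMod.card]
  · intro h hh
    obtain ⟨⟨i, e⟩, _, rfl⟩ := Finset.mem_image.1 hh
    refine Finset.mem_image.2 ⟨(i, e - 1), Finset.mem_univ _, ?_⟩
    rw [hf]
    simp only [map_add, map_sub, map_one]
    ring

/-- sharpness for all `m = 1 + j l` -/
theorem sharp (l j : ℕ) (hl : l.Prime) (hj : 1 ≤ j) :
    ∃ (K : Type) (_ : Field K), CharP K l ∧
      ∃ A : Finset (Fin 3 → K), (∀ a ∈ A, a ≠ 0) ∧
      (∀ a ∈ A, ∀ b ∈ A, a ≠ b → LinearIndependent K ![a, b]) ∧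
      (∃ a ∈ A, ∃ b ∈ A, ∃ c ∈ A, LinearIndependent K ![a, b, c]) ∧
      ∃ p : Fin 3 → K, p ≠ 0 ∧
        (∃ a ∈ A, ∃ b ∈ A, a ≠ b ∧ dotProduct a p = 0 ∧ dotProduct b p = 0) ∧
        (∀ a ∈ A, ∀ b ∈ A, a ≠ b → ¬ (dotProduct a p = 0 ∧ dotProduct b p = 0) →
          ∃ c ∈ A, dotProduct c p = 0 ∧ ¬ LinearIndependent K ![a, b, c]) ∧
        (A.filter fun c => dotProduct c p = 0).card = j * l + 1 ∧
        ∃ a ∈ A, dotProduct a p ≠ 0 ∧ ∀ c ∈ A, c ≠ a → ∃ b ∈ A, b ≠ a ∧ b ≠ c ∧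
          ¬ LinearIndependent K ![a, c, b] := by
  have : Fact l.Prime := ⟨hl⟩
  obtain ⟨H, hH, h1⟩ := exists_H l j
  refine ⟨RatFunc (ZMod l), inferInstance, ?_, ?_⟩
  · exact charP_of_injective_algebraMap (algebraMap (ZMod l) (RatFunc (ZMod l))).injective l
  · rw [← hH]
    apply sharp_of H h1
    rw [← Finset.card_pos, hH]
    exact Nat.mul_pos hj hl.pos

end MPss.AF
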